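import Pool.Agent.H37.CNU.Stmts

/-!
# Denominators of conductors, row `UNC`: an upper bound for the order of `SU_3(q)`
-/

set_option autoImplicit false

namespace Pool.CND

namespace H14UNC

open Matrix

lemma card_fib {α β : Type} [Finite α] [Finite β] (f : α → β) (n : ℕ)
    (h : ∀ b, Nat.card {x // f x = b} ≤ n) : Nat.card α ≤ n * Nat.card β := by
  classical
  have := Fintype.ofFinite β
  rw [← Nat.card_congr (Equiv.sigmaFiberEquiv f), Nat.card_sigma]
  calc ∑ b, Nat.card {x // f x = b} ≤ ∑ _b : β, n := Finset.sum_le_sum fun b _ => h b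
    _ = n * Nat.card β := by
      rw [Finset.sum_const, Finset.card_univ, Nat.card_eq_fintype_card, smul_eq_mul, mul_comm]

lemma roots_le {F : Type} [Field F] (q : ℕ) (hq : 2 ≤ q) (a b c : F) (ha : a ≠ 0) :
    Nat.card {y : F // a * y ^ q + b * y = c} ≤ q := by
  classical
  set P : Polynomial F := Polynomial.C a * Polynomial.X ^ q + (Polynomial.C b * Polynomial.X
    - Polynomial.C c) with hP
  have hd : (Polynomial.C b * Polynomial.X - Polynomial.C c : Polynomial F).degree < (q : ℕ) := by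
    refine lt_of_le_of_lt (Polynomial.degree_sub_le _ _) ?_
    refine max_lt ?_ ?_
    · refine lt_of_le_of_lt (Polynomial.degree_C_mul_X_le b) ?_
      exact_mod_cast hq
    · refine lt_of_le_of_lt Polynomial.degree_C_le ?_
      exact_mod_cast (by omega : 0 < q)
  have hd2 : P.degree = (q : ℕ) := by
    rw [hP, Polynomial.degree_add_eq_left_of_degree_lt, Polynomial.degree_C_mul_X_pow q ha]
    rw [Polynomial.degree_C_mul_X_pow q ha]
    exact hd
  have hne : P ≠ 0 := by
    intro h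
    rw [h, Polynomial.degree_zero] at hd2
    exact absurd hd2 (by simp)
  have hnd : P.natDegree = q := Polynomial.natDegree_eq_of_degree_eq_some hd2
  have hinj : Nat.card {y : F // a * y ^ q + b * y = c} ≤ Nat.card {y : F // y ∈ P.roots.toFinset} := by
    refine Nat.card_le_card_of_injective
      (fun y => (⟨y.1, ?_⟩ : {y : F // y ∈ P.roots.toFinset})) ?_
    · rw [Multiset.mem_toFinset, Polynomial.mem_roots hne, Polynomial.IsRoot.def, hP]
      simp only [Polynomial.eval_add, Polynomial.eval_mul, Polynomial.eval_C,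
        Polynomial.eval_pow, Polynomial.eval_X, Polynomial.eval_sub]
      linear_combination y.2
    · intro x y hxy
      have h2 : x.1 = y.1 := congrArg (fun z : {y : F // y ∈ P.roots.toFinset} => z.1) hxy
      exact Subtype.ext h2
  refine hinj.trans ?_
  rw [Nat.card_eq_fintype_card, Fintype.card_coe]
  exact (Multiset.toFinset_card_le _).trans ((Polynomial.card_roots' P).trans hnd.le)

/-- entries of the relation -/
lemma ent {F : Type} [Field F] (σ : F →+* F) (g : SU3 σ) (i j : Fin 3) :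
    g.1.1 i 0 * σ (g.1.1 j 2) + g.1.1 i 2 * σ (g.1.1 j 0) - g.1.1 i 1 * σ (g.1.1 j 1) = J3 F i j := by
  have h : g.1.1 * J3 F * (g.1.1.map σ)ᵀ = J3 F := g.2
  have h2 := congrFun (congrFun h i) j
  rw [← h2]
  simp [Matrix.mul_apply, Fin.sum_univ_three, J3]
  ring

/-- the elements with first row `(1, 0, 0)` -/
abbrev HH {F : Type} [Field F] (σ : F →+* F) : Type :=
  {h : SU3 σ // h.1.1 0 0 = 1 ∧ h.1.1 0 1 = 0 ∧ h.1.1 0 2 = 0}

lemma shape {F : Type} [Field F] (σ : F →+* F) (h : HH σ) :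
    h.1.1.1 1 2 = 0 ∧ h.1.1.1 2 2 = 1 ∧ h.1.1.1 1 1 = 1 ∧ h.1.1.1 1 0 = σ (h.1.1.1 2 1) ∧
    h.1.1.1 2 0 + σ (h.1.1.1 2 0) = h.1.1.1 2 1 * σ (h.1.1.1 2 1) := by
  obtain ⟨g, h0, h1, h2⟩ := h
  have e01 := ent σ g 0 1
  have e02 := ent σ g 0 2
  have e12 := ent σ g 1 2
  have e22 := ent σ g 2 2
  have hd : g.1.1.det = 1 := g.1.2
  rw [Matrix.det_fin_three] at hd
  simp only [h0, h1, h2, J3] at e01 e02 hd
  simp at e01 e02 hd
  simp only
  have a2 : g.1.1 2 2 = 1 := by
    have : σ (g.1.1 2 2) = σ 1 := by rw [e02, map_one]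
    exact σ.injective this
  rw [e01, a2] at hd
  simp at hd
  rw [e01, a2, hd] at e12
  rw [a2] at e22
  simp [J3] at e12 e22
  refine ⟨e01, a2, hd, ?_, ?_⟩
  · linear_combination e12
  · linear_combination e22

lemma card_HH {F : Type} [Field F] (q : ℕ) (hq : 2 ≤ q) (σ : F →+* F) (hF : Nat.card F = q ^ 2)
    (hσ : ∀ a, σ a = a ^ q) : Nat.card (HH σ) ≤ q ^ 3 := by
  have : Finite F := Nat.finite_of_card_ne_zero (by rw [hF]; positivity)
  have : Finite (Matrix.SpecialLinearGroup (Fin 3) F) := inferInstance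
  have key := card_fib (fun h : HH σ => h.1.1.1 2 1) q ?_
  · rw [hF] at key
    calc Nat.card (HH σ) ≤ q * q ^ 2 := key
      _ = q ^ 3 := by ring
  · intro c
    refine le_trans ?_ (roots_le q hq (1 : F) 1 (c * σ c) one_ne_zero)
    refine Nat.card_le_card_of_injective
      (fun h => (⟨h.1.1.1.1 2 0, ?_⟩ : {y : F // 1 * y ^ q + 1 * y = c * σ c})) ?_
    · have h1 := (shape σ h.1).2.2.2.2
      have h2 : h.1.1.1.1 2 1 = c := h.2
      rw [h2] at h1
      rw [← h1, hσ (h.1.1.1.1 2 0)]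
      ring
    · intro x y hxy
      have h3 : x.1.1.1.1 2 0 = y.1.1.1.1 2 0 := congrArg Subtype.val hxy
      have hx2 : x.1.1.1.1 2 1 = c := x.2
      have hy2 : y.1.1.1.1 2 1 = c := y.2
      obtain ⟨a1, a2, a3, a4, -⟩ := shape σ x.1
      obtain ⟨b1, b2, b3, b4, -⟩ := shape σ y.1
      obtain ⟨c1, c2, c3⟩ := x.1.2
      obtain ⟨d1, d2, d3⟩ := y.1.2
      apply Subtype.ext
      apply Subtype.ext
      apply Subtype.ext
      apply Subtype.ext
      ext i j
      fin_cases i <;> fin_cases j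
      · exact c1.trans d1.symm
      · exact c2.trans d2.symm
      · exact c3.trans d3.symm
      · exact a4.trans ((by rw [hx2, hy2] : σ (x.1.1.1.1 2 1) = σ (y.1.1.1.1 2 1)).trans b4.symm)
      · exact a3.trans b3.symm
      · exact a1.trans b1.symm
      · exact h3
      · exact hx2.trans hy2.symm
      · exact a2.trans b2.symm

/-- the isotropic vectors -/
abbrev VV (F : Type) [Field F] (q : ℕ) : Type :=
  {v : Fin 3 → F // v ≠ 0 ∧ v 0 * v 2 ^ q + v 2 * v 0 ^ q = v 1 ^ (q + 1)}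

lemma card_ne {F : Type} [Field F] [Finite F] (q : ℕ) (hF : Nat.card F = q ^ 2) :
    Nat.card {a : F // a ≠ 0} = q ^ 2 - 1 := by
  rw [← Nat.card_congr (unitsEquivNeZero (G₀ := F)), Nat.card_units, hF]

lemma card_VV {F : Type} [Field F] (q : ℕ) (hq : 2 ≤ q) (hF : Nat.card F = q ^ 2) :
    Nat.card (VV F q) ≤ (q ^ 2 - 1) * (q ^ 3 + 1) := by
  classical
  have : Finite F := Nat.finite_of_card_ne_zero (by rw [hF]; positivity)
  rw [← Nat.card_congr (Equiv.sumCompl (fun v : VV F q => v.1 0 = 0)), Nat.card_sum]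
  have h0 : Nat.card {v : VV F q // v.1 0 = 0} ≤ q ^ 2 - 1 := by
    rw [← card_ne q hF]
    have hz : ∀ v : {v : VV F q // v.1 0 = 0}, v.1.1 1 = 0 := by
      rintro ⟨⟨v, hv0, hv⟩, h0⟩
      simp only at h0 ⊢
      rw [h0, zero_mul, zero_pow (by omega), mul_zero, add_zero] at hv
      exact pow_eq_zero_iff (by omega) |>.mp hv.symm
    refine Nat.card_le_card_of_injective (fun v => (⟨v.1.1 2, ?_⟩ : {a : F // a ≠ 0})) ?_
    · intro h2
      apply v.1.2.1
      ext i
      fin_cases i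
      · exact v.2
      · exact hz v
      · exact h2
    · intro x y hxy
      have h2 : x.1.1 2 = y.1.1 2 := congrArg Subtype.val hxy
      apply Subtype.ext
      apply Subtype.ext
      ext i
      fin_cases i
      · exact x.2.trans y.2.symm
      · exact (hz x).trans (hz y).symm
      · exact h2
  have h1 : Nat.card {v : VV F q // ¬ v.1 0 = 0} ≤ q * ((q ^ 2 - 1) * q ^ 2) := by
    have key := card_fib (fun v : {v : VV F q // ¬ v.1 0 = 0} =>
      ((⟨v.1.1 0, v.2⟩, v.1.1 1) : {a : F // a ≠ 0} × F)) q ?_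
    · rw [Nat.card_prod, card_ne q hF, hF] at key
      exact key
    · rintro ⟨⟨a, ha⟩, b⟩
      refine le_trans ?_ (roots_le q hq a (a ^ q) (b ^ (q + 1)) ha)
      refine Nat.card_le_card_of_injective
        (fun v => (⟨v.1.1.1 2, ?_⟩ : {y : F // a * y ^ q + a ^ q * y = b ^ (q + 1)})) ?_
      · have h2 := v.2
        simp only [Prod.mk.injEq, Subtype.mk.injEq] at h2
        have h3 := v.1.1.2.2
        rw [h2.1, h2.2] at h3
        rw [← h3]
        ring
      · intro x y hxy
        have h2 : x.1.1.1 2 = y.1.1.1 2 := congrArg Subtype.val hxy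
        have hx := x.2
        have hy := y.2
        simp only [Prod.mk.injEq, Subtype.mk.injEq] at hx hy
        apply Subtype.ext
        apply Subtype.ext
        apply Subtype.ext
        ext i
        fin_cases i
        · exact hx.1.trans hy.1.symm
        · exact hx.2.trans hy.2.symm
        · exact h2
  calc _ ≤ (q ^ 2 - 1) + q * ((q ^ 2 - 1) * q ^ 2) := Nat.add_le_add h0 h1
    _ = (q ^ 2 - 1) * (q ^ 3 + 1) := by ring

end H14UNC

open H14UNC in
theorem unc_thm : S_UNC := by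
  classical
  intro p F _ f q σ hp hf hqf hF hσ
  have hq : 2 ≤ q := by
    rw [hqf]
    calc 2 ≤ p := hp.two_le
      _ = p ^ 1 := (pow_one p).symm
      _ ≤ p ^ f := Nat.pow_le_pow_right hp.pos hf
  have : Finite F := Nat.finite_of_card_ne_zero (by rw [hF]; positivity)
  have : Finite (Matrix.SpecialLinearGroup (Fin 3) F) := inferInstance
  have hrow : ∀ g : SU3 σ, g.1.1 0 ≠ 0 := by
    intro g h0
    have hd : g.1.1.det = 1 := g.1.2
    rw [Matrix.det_eq_zero_of_row_eq_zero 0 (fun j => congrFun h0 j)] at hd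
    exact zero_ne_one hd
  have hiso : ∀ g : SU3 σ, g.1.1 0 0 * g.1.1 0 2 ^ q + g.1.1 0 2 * g.1.1 0 0 ^ q
      = g.1.1 0 1 ^ (q + 1) := by
    intro g
    have h := ent σ g 0 0
    rw [hσ, hσ, hσ] at h
    simp only [J3] at h
    simp at h
    linear_combination h
  have key := card_fib (fun g : SU3 σ => (⟨g.1.1 0, hrow g, hiso g⟩ : VV F q)) (q ^ 3) ?_
  · exact key.trans (Nat.mul_le_mul_left _ (card_VV q hq hF))
  · rintro ⟨v, hv⟩
    by_cases hne : Nonempty {g : SU3 σ // (⟨g.1.1 0, hrow g, hiso g⟩ : VV F q) = ⟨v, hv⟩}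
    · obtain ⟨g0, hg0⟩ := hne
      simp only [Subtype.mk.injEq] at hg0
      refine le_trans ?_ (card_HH q hq σ hF hσ)
      have hmem : ∀ g : SU3 σ, g.1.1 0 = v →
          (g * g0⁻¹).1.1 0 0 = 1 ∧ (g * g0⁻¹).1.1 0 1 = 0 ∧ (g * g0⁻¹).1.1 0 2 = 0 := by
        intro g hg
        have h1 : ∀ j, (g * g0⁻¹).1.1 0 j = (g0 * g0⁻¹).1.1 0 j := by
          intro j
          show (g.1.1 * (g0⁻¹).1.1) 0 j = (g0.1.1 * (g0⁻¹).1.1) 0 j
          rw [Matrix.mul_apply, Matrix.mul_apply, hg, hg0]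
        rw [h1, h1, h1, mul_inv_cancel]
        refine ⟨?_, ?_, ?_⟩
        · show (1 : Matrix (Fin 3) (Fin 3) F) 0 0 = 1
          simp
        · show (1 : Matrix (Fin 3) (Fin 3) F) 0 1 = 0
          simp
        · show (1 : Matrix (Fin 3) (Fin 3) F) 0 2 = 0
          simp
      refine Nat.card_le_card_of_injective
        (fun g => (⟨g.1 * g0⁻¹, hmem g.1 (by simpa using g.2)⟩ : HH σ)) ?_
      intro x y hxy
      have h1 : x.1 * g0⁻¹ = y.1 * g0⁻¹ := congrArg Subtype.val hxy
      exact Subtype.ext (mul_right_cancel h1)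
    · have : IsEmpty {g : SU3 σ // (⟨g.1.1 0, hrow g, hiso g⟩ : VV F q) = ⟨v, hv⟩} :=
        not_nonempty_iff.mp hne
      rw [Nat.card_of_isEmpty]
      exact Nat.zero_le _

end Pool.CND
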